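import Pool.Agent.H20.FT.Targets

/-! Row OB of `fwt_modules`: the degree is at most the size of the orbit. -/

set_option autoImplicit false

open NumberField Height Finset Pool.Agent.H20.FT

namespace Pool.Agent.H79.FT

theorem pf_OB : T_OB := by
  classical
  intro E β B hB
  have ha : Algebra.IsAlgebraic ℚ (AlgebraicClosure ℚ) := AlgebraicClosure.isAlgebraic ℚ
  have hc : IsAlgClosure ℚ (AlgebraicClosure ℚ) := ⟨inferInstance, ha⟩
  have hn : Normal ℚ (AlgebraicClosure ℚ) := IsAlgClosure.normal ℚ (AlgebraicClosure ℚ)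
  have hnE : Normal E (AlgebraicClosure ℚ) := Normal.tower_top_of_normal ℚ E (AlgebraicClosure ℚ)
  have hint : IsIntegral E β := hnE.isIntegral β
  have h1 : Module.finrank E (IntermediateField.adjoin E {β}) = (minpoly E β).natDegree :=
    IntermediateField.adjoin.finrank hint
  have hsep : (minpoly E β).Separable := (minpoly.irreducible hint).separable
  have h2 : Fintype.card ((minpoly E β).rootSet (AlgebraicClosure ℚ)) =
      (minpoly E β).natDegree :=
    Polynomial.card_rootSet_eq_natDegree hsep (IsAlgClosed.splits _)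
  rw [h1, ← h2, ← Fintype.card_coe B]
  refine Fintype.card_le_of_injective (fun y => ⟨(y : AlgebraicClosure ℚ), ?_⟩) ?_
  · have hy := y.2
    rw [Polynomial.mem_rootSet] at hy
    have h3 : IsConjRoot E β (y : AlgebraicClosure ℚ) :=
      (isConjRoot_iff_aeval_eq_zero hint).2 hy.2
    obtain ⟨σ, hσ⟩ := isConjRoot_iff_exists_algEquiv.1 h3.symm
    rw [← hσ]
    exact hB σ
  · intro y z h
    exact Subtype.ext (congrArg (fun w : {x // x ∈ B} => (w : AlgebraicClosure ℚ)) h)

end Pool.Agent.H79.FT
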